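import Pool.Agent.Lib.HC.Iface
import Pool.Agent.Lib.HC.Red

/-!
# PROJECT HC, part F: balanced families of CM types (helper31)
-/

set_option autoImplicit false

noncomputable section

namespace HC

variable {X : CMF}

/-- left multiplication by the complex conjugation -/
def CMF.rho (X : CMF) (g : X.G) : X.G := X.c * g

theorem CMF.rho_rho (X : CMF) (g : X.G) : X.rho (X.rho g) = g := by
  show X.c * (X.c * g) = g
  rw [← mul_assoc, X.cc, one_mul]

theorem CMF.rho_ne (X : CMF) (g : X.G) : X.rho g ≠ g := by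
  intro h
  have h1 : X.c * g = 1 * g := by
    rw [one_mul]
    exact h
  exact X.ne (mul_right_cancel h1)

theorem Ty.ind_ty (Φ : Ty X) : Comb.IsTy X.rho Φ.ind := by
  classical
  intro g
  show Φ.ind g + Φ.ind (X.c * g) = 1
  unfold Ty.ind
  by_cases h : g ∈ Φ.S
  · rw [if_pos h, if_neg ((Φ.cm g).1 h)]
  · rw [if_neg h, if_pos (Ty.cmem h)]

theorem Ty.ind_inj : Function.Injective (Ty.ind (X := X)) := by
  classical
  intro Φ Ψ h
  ext g
  have h1 := congrFun h g
  unfold Ty.ind at h1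
  by_cases h2 : g ∈ Φ.S
  · rw [if_pos h2] at h1
    by_cases h3 : g ∈ Ψ.S
    · exact ⟨fun _ => h3, fun _ => h2⟩
    · rw [if_neg h3] at h1
      exact absurd h1 one_ne_zero
  · rw [if_neg h2] at h1
    by_cases h3 : g ∈ Ψ.S
    · rw [if_pos h3] at h1
      exact absurd h1 zero_ne_one
    · exact ⟨fun h => absurd h h2, fun h => absurd h h3⟩

theorem Ty.ind_sur (f : X.G → ℕ) (hf : Comb.IsTy X.rho f) : ∃ Φ : Ty X, Φ.ind = f := by
  classical
  have h1 : ∀ g, f g + f (X.c * g) = 1 := hf
  refine ⟨⟨{g | f g = 1}, fun g => ?_⟩, ?_⟩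
  · have := h1 g
    show f g = 1 ↔ ¬ f (X.c * g) = 1
    omega
  · funext g
    have := h1 g
    unfold Ty.ind
    by_cases h2 : f g = 1
    · rw [if_pos (show g ∈ {g | f g = 1} from h2), h2]
    · rw [if_neg (show g ∉ {g | f g = 1} from h2)]
      omega

theorem Ty.ind_conj (Φ : Ty X) : Φ.conj.ind = Comb.cjf X.rho Φ.ind := by
  classical
  funext g
  show Φ.conj.ind g = Φ.ind (X.c * g)
  unfold Ty.ind
  by_cases h : g ∈ Φ.S
  · rw [if_neg (show g ∉ Φ.conj.S from fun h2 => h2 h), if_neg ((Φ.cm g).1 h)]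
  · rw [if_pos (show g ∈ Φ.conj.S from h), if_pos (Ty.cmem h)]

instance CMF.finG (X : CMF) : Finite X.G := inferInstance

instance Ty.nonempty : Nonempty (Ty X) := by
  classical
  obtain ⟨n, ⟨e⟩⟩ := Finite.exists_equiv_fin X.G
  refine ⟨⟨{g | e g < e (X.c * g)}, fun g => ?_⟩⟩
  show e g < e (X.c * g) ↔ ¬ (e (X.c * g) < e (X.c * (X.c * g)))
  have h1 : X.c * (X.c * g) = g := X.rho_rho g
  rw [h1, not_lt]
  have h2 : e g ≠ e (X.c * g) := fun h => X.rho_ne g (e.injective h).symm
  exact ⟨le_of_lt, fun h => lt_of_le_of_ne h h2⟩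

/-- **PART PF.** -/
theorem tPF (h0 : S_P0) (h1 : S_P1) (h2 : S_P2) (h3 : S_P3) (h4 : S_P4) : S_PF := by
  intro X m k g hk
  refine Comb.red X.rho X.rho_rho X.rho_ne Ty.ind Ty.conj Ty.ind_ty Ty.ind_inj Ty.ind_sur
    Ty.ind_conj (fun m g => PP g) (fun m g σ h => h0 X m g σ h) ?_
    (fun m n g h hg hh => h1 X m n g h hg hh) (fun m a g h => h2 X m g a h) (fun a => h3 X a)
    (fun a b c d h => h4 X _ fun x => ?_) m g k hk
  · obtain ⟨Φ⟩ := (inferInstance : Nonempty (Ty X))
    refine h2 X 0 Fin.elim0 Φ ?_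
    have e : (Fin.cons Φ (Fin.cons Φ.conj Fin.elim0 : Fin (0 + 1) → Ty X) :
        Fin (0 + 1 + 1) → Ty X) = ![Φ, Φ.conj] := by
      funext i
      refine Fin.cases rfl (fun i => ?_) i
      refine Fin.cases rfl (fun i => i.elim0) i
    rw [e]
    exact h3 X Φ
  · rw [Fin.sum_univ_four]
    exact h x

/-- **PART F.** -/
theorem tF : S_F := by
  classical
  intro X S k hk
  have hg : ∀ f : X.G → ℕ, Comb.IsTy X.rho f → (Function.invFun (Ty.ind (X := X)) f).ind = f :=
    fun f hf => Function.invFun_eq (Ty.ind_sur f hf)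
  have hg' : ∀ a : Ty X, Function.invFun (Ty.ind (X := X)) a.ind = a :=
    fun a => Ty.ind_inj (hg _ a.ind_ty)
  have hgc : ∀ f : X.G → ℕ, Comb.IsTy X.rho f → Function.invFun (Ty.ind (X := X))
      (Comb.cjf X.rho f) = (Function.invFun (Ty.ind (X := X)) f).conj := by
    intro f hf
    apply Ty.ind_inj
    rw [hg _ hf.cj, Ty.ind_conj, hg _ hf]
  obtain ⟨A, R, hA, hR, h⟩ := Comb.comb X.rho X.rho_rho X.rho_ne (S.map Ty.ind) (fun f hf => by
    obtain ⟨a, -, rfl⟩ := Multiset.mem_map.1 hf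
    exact a.ind_ty) k (fun x => by
    rw [Multiset.map_map]
    exact hk x)
  refine ⟨A.map (Function.invFun (Ty.ind (X := X))),
    R.map (Multiset.map (Function.invFun (Ty.ind (X := X)))), fun r hr => ?_, ?_⟩
  · obtain ⟨m, hm, rfl⟩ := Multiset.mem_map.1 hr
    rcases hR m hm with ⟨P, hP, rfl⟩ | ⟨P, T, U, V, hP, hT, hU, hV, hs, rfl⟩
    · left
      refine ⟨Function.invFun (Ty.ind (X := X)) P, ?_⟩
      rw [← hgc P hP]
      simp
    · right
      refine ⟨by simp, fun x => ?_⟩
      have := hs x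
      simp only [Multiset.insert_eq_cons, Multiset.map_cons, Multiset.map_singleton,
        Multiset.sum_cons, Multiset.sum_singleton]
      rw [hg _ hP, hg _ hT, hg _ hU, hg _ hV, ← add_assoc, ← add_assoc]
      exact this
  · have h1 := congrArg (Multiset.map (Function.invFun (Ty.ind (X := X)))) h
    rw [Multiset.map_add, Multiset.map_add, Multiset.map_map, Multiset.map_map] at h1
    have e1 : S.map (Function.invFun (Ty.ind (X := X)) ∘ Ty.ind) = S := by
      have e2 : (Function.invFun (Ty.ind (X := X)) ∘ Ty.ind) = id := funext hg'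
      rw [e2, Multiset.map_id]
    rw [e1] at h1
    have e3 : A.map (Function.invFun (Ty.ind (X := X)) ∘ Comb.cjf X.rho) =
        (A.map (Function.invFun (Ty.ind (X := X)))).map Ty.conj := by
      rw [Multiset.map_map]
      exact Multiset.map_congr rfl fun f hf => hgc f (hA f hf)
    rw [e3] at h1
    rw [← add_assoc, h1]
    have e4 : ∀ R : Multiset (Multiset (X.G → ℕ)), R.sum.map (Function.invFun (Ty.ind (X := X))) =
        (R.map (Multiset.map (Function.invFun (Ty.ind (X := X))))).sum := by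
      intro R
      induction R using Multiset.induction_on with
      | empty => simp
      | cons m R ih =>
        rw [Multiset.sum_cons, Multiset.map_add, ih, Multiset.map_cons, Multiset.sum_cons]
    exact e4 R

end HC
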